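import Pool.Agent.H64.AK.Defs

/-!
# The proper forcing axiom implies Martin's axiom (draft definitions)
-/

set_option autoImplicit false

open Cardinal

namespace Pool.Agent.H64.PFA

open Pool.Agent.H64.AK

/-- `P` is proper: for a club of countable `M ⊆ P ∪ 𝒫(P)` (given by the closure under a function
on finite sets) every `p ∈ M` has an `M`-generic extension `q` -/
def IsProper (P : Type) [PartialOrder P] : Prop :=
  ∃ F : Finset (P ⊕ Set P) → Set (P ⊕ Set P), (∀ s, (F s).Countable) ∧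
    ∀ M : Set (P ⊕ Set P), M.Countable → (∀ s : Finset (P ⊕ Set P), (s : Set (P ⊕ Set P)) ⊆ M →
      F s ⊆ M) → ∀ p, Sum.inl p ∈ M → ∃ q ≤ p, ∀ D : Set P, Sum.inr D ∈ M →
        (∀ a : P, ∃ b ∈ D, b ≤ a) → ∀ r ≤ q, ∃ d ∈ D, Sum.inl d ∈ M ∧ ∃ c, c ≤ r ∧ c ≤ d

/-- the proper forcing axiom -/
def PFA : Prop := ∀ (P : Type) [PartialOrder P] [Nonempty P], IsProper P →
  ∀ (ι : Type) (D : ι → Set P), #ι ≤ ℵ₁ → (∀ i, ∀ p : P, ∃ q ∈ D i, q ≤ p) →
    ∃ G : Set P, G.Nonempty ∧ (∀ a ∈ G, ∀ b : P, a ≤ b → b ∈ G) ∧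
      (∀ a ∈ G, ∀ b ∈ G, ∃ c ∈ G, c ≤ a ∧ c ≤ b) ∧ ∀ i, (D i ∩ G).Nonempty

/-- inside every dense set there is a maximal antichain -/
theorem exists_antichain {P : Type} [PartialOrder P] (D : Set P)
    (hD : ∀ a : P, ∃ b ∈ D, b ≤ a) : ∃ A ⊆ D, (∀ a ∈ A, ∀ b ∈ A, a ≠ b →
      ¬ ∃ c : P, c ≤ a ∧ c ≤ b) ∧ ∀ r : P, ∃ a ∈ A, ∃ c, c ≤ r ∧ c ≤ a := by
  obtain ⟨A, hA⟩ := zorn_subset {A : Set P | A ⊆ D ∧ ∀ a ∈ A, ∀ b ∈ A, a ≠ b →
      ¬ ∃ c : P, c ≤ a ∧ c ≤ b} (by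
    intro c hc hch
    refine ⟨⋃₀ c, ⟨Set.sUnion_subset fun s hs => (hc hs).1, ?_⟩, fun s hs =>
      Set.subset_sUnion_of_mem hs⟩
    rintro a ⟨s, hs, has⟩ b ⟨t, ht, hbt⟩ hab
    rcases hch.total hs ht with h | h
    · exact (hc ht).2 a (h has) b hbt hab
    · exact (hc hs).2 a has b (h hbt) hab)
  refine ⟨A, hA.prop.1, hA.prop.2, fun r => ?_⟩
  by_contra hr
  push Not at hr
  obtain ⟨b, hbD, hbr⟩ := hD r
  have hb : ∀ a ∈ A, ¬ ∃ c, c ≤ b ∧ c ≤ a := by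
    rintro a ha ⟨c, hc, hc'⟩
    exact hr a ha c (hc.trans hbr) hc'
  have h2 : insert b A ⊆ A := hA.le_of_ge (y := insert b A) ⟨by
      intro x hx
      rcases hx with rfl | hx
      · exact hbD
      · exact hA.prop.1 hx, by
      intro x hx y hy hxy
      rcases hx with rfl | hx <;> rcases hy with rfl | hy
      · exact (hxy rfl).elim
      · exact hb y hy
      · rintro ⟨c, hc, hc'⟩
        exact hb x hx ⟨c, hc', hc⟩
      · exact hA.prop.2 x hx y hy hxy⟩ (Set.subset_insert b A)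
  exact hb b (h2 (Set.mem_insert b A)) ⟨b, le_rfl, le_rfl⟩

theorem ccc_proper {P : Type} [PartialOrder P]
    (h : ∀ A : Set P, (∀ a ∈ A, ∀ b ∈ A, a ≠ b → ¬ ∃ c : P, c ≤ a ∧ c ≤ b) → A.Countable) :
    IsProper P := by
  classical
  refine ⟨fun s => {x | ∃ (D : Set P) (hD : ∀ a : P, ∃ b ∈ D, b ≤ a), s = {Sum.inr D} ∧
    ∃ a ∈ (exists_antichain D hD).choose, x = Sum.inl a}, ?_, ?_⟩
  · intro s
    by_cases hs : ∃ (D : Set P) (_ : ∀ a : P, ∃ b ∈ D, b ≤ a), s = {Sum.inr D}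
    · obtain ⟨D, hD, rfl⟩ := hs
      refine ((h _ (exists_antichain D hD).choose_spec.2.1).image (Sum.inl : P → P ⊕ Set P)).mono
        ?_
      rintro x ⟨D', hD', he, a, ha, rfl⟩
      have : D = D' := by
        have := Finset.singleton_injective he
        exact Sum.inr_injective this
      subst this
      exact ⟨a, ha, rfl⟩
    · refine Set.countable_empty.mono ?_
      rintro x ⟨D', hD', he, -⟩
      exact (hs ⟨D', hD', he⟩).elim
  · intro M hM hcl p hp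
    refine ⟨p, le_rfl, fun D hDM hD r hr => ?_⟩
    obtain ⟨a, ha, hc⟩ := (exists_antichain D hD).choose_spec.2.2 r
    refine ⟨a, (exists_antichain D hD).choose_spec.1 ha, ?_, hc⟩
    refine hcl {Sum.inr D} ?_ ⟨D, hD, rfl, a, ha, rfl⟩
    simpa using hDM

theorem pfa_ma1 : PFA → MA1 := by
  intro hP P _ _ hccc ι D hι hD
  exact hP P (ccc_proper hccc) ι D hι hD

end Pool.Agent.H64.PFA
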